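import Mathlib
import Pool.Agent.Helper394.Wrap

open Finset Filter Topology

namespace Pool.Agent.Results.MP_7e070a_pr.CycleNoCutoff

noncomputable section

/-- The `t`-fold convolution power `μ^{*t}` of a function on `ZMod n` (with `μ^{*0} = δ_0`):
the law at time `t` of the convolution walk started at `0`. -/
def convPow {n : ℕ} [NeZero n] (μ : ZMod n → ℝ) : ℕ → ZMod n → ℝ
  | 0 => fun x => if x = 0 then 1 else 0
  | t + 1 => fun x => ∑ y, convPow μ t y * μ (x - y)

/-- `‖μ^{*t} - U‖_TV`, with `U` the uniform distribution. -/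
def tv {n : ℕ} [NeZero n] (μ : ZMod n → ℝ) (t : ℕ) : ℝ :=
  (1 / 2 : ℝ) * ∑ x, |convPow μ t x - 1 / (n : ℝ)|

/-- `T_mix(ε) = min {t : ‖μ^{*t} - U‖_TV ≤ ε}`. -/
def tmix {n : ℕ} [NeZero n] (μ : ZMod n → ℝ) (ε : ℝ) : ℕ := sInf {t : ℕ | tv μ t ≤ ε}

/-- The eigenvalue `μ^(j) = ∑_x μ(x) cos(2π j x / n)`. -/
def hat {n : ℕ} [NeZero n] (μ : ZMod n → ℝ) (j : ZMod n) : ℝ :=
  ∑ x, μ x * Real.cos (2 * Real.pi * (j.val : ℝ) * (x.val : ℝ) / (n : ℝ))

/-- `λ_* = max_{j ≠ 0} |μ^(j)|`. -/
def lamStar {n : ℕ} [NeZero n] (μ : ZMod n → ℝ) : ℝ := ⨆ j : {j : ZMod n // j ≠ 0}, |hat μ j|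

/-- The relaxation time `1 / (1 - λ_*)`. -/
def trel {n : ℕ} [NeZero n] (μ : ZMod n → ℝ) : ℝ := 1 / (1 - lamStar μ)

/-- `μ` is a symmetric probability measure on `ZMod n`. -/
def IsSymmProb {n : ℕ} [NeZero n] (μ : ZMod n → ℝ) : Prop :=
  (∀ x, 0 ≤ μ x) ∧ ∑ x, μ x = 1 ∧ ∀ x, μ (-x) = μ x

section

variable {N : ℕ} [NeZero N]

/-- The step distribution: stay put with probability one half, otherwise uniform on `S`. -/
def mu (S : Finset (ZMod N)) (x : ZMod N) : ℝ :=
  (if x = 0 then 1 / 2 else 0) + (if x ∈ S then 1 / (2 * (S.card : ℝ)) else 0)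

/-- The transition matrix `P(x,y) = μ(y-x)`. -/
def mat (μ : ZMod N → ℝ) : Matrix (ZMod N) (ZMod N) ℝ := fun x y => μ (y - x)

theorem convPow_eq (μ : ZMod N → ℝ) (t : ℕ) (x : ZMod N) :
    convPow μ t x = (mat μ ^ t) 0 x := by
  induction t generalizing x with
  | zero =>
    simp only [convPow, pow_zero, Matrix.one_apply]
    by_cases h : x = 0
    · simp [h]
    · simp [h, Ne.symm h]
  | succ t ih =>
    simp only [convPow, pow_succ, Matrix.mul_apply, ih]
    rfl

theorem mat_mulVec (S : Finset (ZMod N)) (f : ZMod N → ℝ) :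
    (mat (mu S)).mulVec f = Helper394.V S f := by
  ext x
  rw [Helper394.V_apply, Helper394.U_apply]
  simp only [Matrix.mulVec, dotProduct, mat, mu, add_mul, ite_mul, zero_mul]
  rw [Finset.sum_add_distrib]
  congr 1
  · have : ∀ y : ZMod N, (y - x = 0) ↔ (y = x) := fun y => sub_eq_zero
    simp only [this]
    rw [Finset.sum_ite_eq' univ x]
    simp
    ring
  · rw [← Finset.sum_filter]
    rw [div_div, Finset.sum_div]
    refine Finset.sum_bij' (fun y _ => y - x) (fun s _ => x + s) ?_ ?_ ?_ ?_ ?_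
    · intro y hy; simpa using hy
    · intro s hs; simpa using hs
    · intro y _; simp
    · intro s _; simp
    · intro y _
      simp only [add_sub_cancel]
      ring

theorem hat_bound {S : Finset (ZMod N)} {T : ℕ} (h : Helper394.Bad S T) (j : ZMod N)
    (hj : j ≠ 0) : |hat (mu S) j| ≤ 7 / 8 := by
  have hSc : (0 : ℝ) < S.card := by exact_mod_cast h.nonempty.card_pos
  set χ : AddChar (ZMod N) ℂ := AddChar.mulShift ZMod.stdAddChar j with hχ
  have hχ1 : χ ≠ 1 := by
    have := ZMod.isPrimitive_stdAddChar N hj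
    intro h1
    exact this h1
  have hre : ∀ x : ZMod N, (χ x).re =
      Real.cos (2 * Real.pi * (j.val : ℝ) * (x.val : ℝ) / (N : ℝ)) := by
    intro x
    have e1 : j * x = (((j.val * x.val : ℕ) : ℤ) : ZMod N) := by
      push_cast
      rw [ZMod.natCast_zmod_val, ZMod.natCast_zmod_val]
    rw [hχ, AddChar.mulShift_apply, e1, ZMod.stdAddChar_coe]
    rw [show (2 * (Real.pi : ℂ) * Complex.I * (((j.val * x.val : ℕ) : ℤ) : ℂ) / (N : ℂ)) =
      ((2 * Real.pi * (j.val : ℝ) * (x.val : ℝ) / (N : ℝ) : ℝ) : ℂ) * Complex.I by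
        push_cast; ring]
    rw [Complex.exp_ofReal_mul_I_re]
  have e2 : hat (mu S) j = 1 / 2 + (1 / (2 * (S.card : ℝ))) * (∑ s ∈ S, χ s).re := by
    unfold hat mu
    simp only [add_mul, ite_mul, zero_mul]
    rw [Finset.sum_add_distrib]
    congr 1
    · rw [Finset.sum_ite_eq' univ (0 : ZMod N)]
      simp
    · rw [Finset.sum_ite_mem, Finset.univ_inter, ← Finset.mul_sum, Complex.re_sum]
      congr 1
      refine Finset.sum_congr rfl fun s _ => ?_
      rw [hre]
  have h4 := h.char χ hχ1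
  have h5 : |(∑ s ∈ S, χ s).re| ≤ 3 / 4 * S.card := (Complex.abs_re_le_norm _).trans h4
  rw [abs_le] at h5
  have h6 : (1 / (2 * (S.card : ℝ))) * (3 / 4 * S.card) = 3 / 8 := by field_simp; norm_num
  have h7 : (0 : ℝ) < 1 / (2 * (S.card : ℝ)) := by positivity
  have h8 := mul_le_mul_of_nonneg_left h5.2 h7.le
  have h9 := mul_le_mul_of_nonneg_left h5.1 h7.le
  rw [e2, abs_le]
  constructor <;> nlinarith

theorem mu_prob {S : Finset (ZMod N)} {T : ℕ} (h : Helper394.Bad S T) : IsSymmProb (mu S) := by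
  have hSc : (0 : ℝ) < S.card := by exact_mod_cast h.nonempty.card_pos
  refine ⟨?_, ?_, ?_⟩
  · intro x
    unfold mu
    split_ifs <;> positivity
  · unfold mu
    rw [Finset.sum_add_distrib, Finset.sum_ite_eq' univ (0 : ZMod N)]
    rw [Finset.sum_ite_mem, Finset.univ_inter, Finset.sum_const, nsmul_eq_mul]
    simp only [Finset.mem_univ, if_true]
    field_simp
    norm_num
  · intro x
    have h1 : (-x = 0) ↔ (x = 0) := neg_eq_zero
    have h2 : (-x ∈ S) ↔ (x ∈ S) := by
      constructor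
      · intro hx; have := h.neg _ hx; rwa [neg_neg] at this
      · intro hx; exact h.neg _ hx
    simp only [mu, h1, h2]

end

/-- There are cycles `ZMod (n k)` with `n k → ∞` and symmetric lazy (hence aperiodic)
irreducible convolution walks on them that satisfy the product condition
`T_mix / T_rel → ∞` but have no total variation cutoff. -/
theorem result :
    ∃ (n : ℕ → ℕ) (_ : ∀ k, NeZero (n k)) (μ : ∀ k, ZMod (n k) → ℝ),
      Tendsto n atTop atTop ∧
      (∀ k, IsSymmProb (μ k)) ∧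
      (∀ k, 1 / 2 ≤ μ k 0) ∧
      (∀ k, AddSubgroup.closure {x : ZMod (n k) | μ k x ≠ 0} = ⊤) ∧
      Tendsto (fun k => (tmix (μ k) (1 / 4) : ℝ) / trel (μ k)) atTop atTop ∧
      ¬ (∀ ε : ℝ, 0 < ε → ε < 1 / 2 →
        Tendsto (fun k => (tmix (μ k) ε : ℝ) / (tmix (μ k) (1 - ε) : ℝ)) atTop (𝓝 1)) := by
  choose N hN S hTN hS using fun n : ℕ => Helper394.exists_bad (n + 64) (by omega)
  have hP : ∀ n, ∀ f : ZMod (N n) → ℝ, (mat (mu (S n))).mulVec f = Helper394.V (S n) f :=
    fun n f => mat_mulVec (S n) f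
  have htv : ∀ n t, tv (mu (S n)) t =
      (1 / 2 : ℝ) * ∑ y, |(mat (mu (S n)) ^ t) 0 y - 1 / (Fintype.card (ZMod (N n)) : ℝ)| := by
    intro n t
    simp only [tv, convPow_eq, ZMod.card]
  have h1 : ∀ n, ∀ t ≤ n + 64, 1 / 2 < tv (mu (S n)) t := by
    intro n t ht
    have h := Helper394.fact_lower (hS n) (hP n) t ht
    rw [htv]
    linarith
  have h2 : ∀ n, tv (mu (S n)) (2 * ((n + 64) / 8) + 1) ≤ 1 - 1 / 2000 := by
    intro n
    rw [htv]
    exact Helper394.fact_upper (hS n) (hP n) ((n + 64) / 8) (by omega) 0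
  have h3 : ∀ n ε, 0 < ε → ∃ t, tv (mu (S n)) t ≤ ε := by
    intro n ε hε
    have hG : (0 : ℝ) < Fintype.card (ZMod (N n)) := by exact_mod_cast Fintype.card_pos
    obtain ⟨t, ht⟩ := Helper394.fact_conv (hS n) (hP n) (ε / Fintype.card (ZMod (N n)))
      (by positivity)
    refine ⟨t, ?_⟩
    rw [htv]
    calc (1 / 2 : ℝ) * ∑ y, |((mat (mu (S n))) ^ t) 0 y - 1 / (Fintype.card (ZMod (N n)) : ℝ)|
        ≤ (1 / 2 : ℝ) * ∑ _y : ZMod (N n), ε / Fintype.card (ZMod (N n)) := by
          gcongr with y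
          exact ht 0 y
      _ = ε / 2 := by
          simp only [Finset.sum_const, Finset.card_univ, nsmul_eq_mul]
          field_simp
      _ ≤ ε := by linarith
  refine ⟨N, hN, fun k => mu (S k), ?_, fun k => mu_prob (hS k), ?_, ?_, ?_, ?_⟩
  · refine tendsto_atTop_mono (fun n => ?_) tendsto_id
    have := hTN n
    simp only [id]
    omega
  · intro k
    have hSc : (0 : ℝ) < (S k).card := by exact_mod_cast (hS k).nonempty.card_pos
    show (1 / 2 : ℝ) ≤ (if (0 : ZMod (N k)) = 0 then 1 / 2 else 0) + _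
    rw [if_pos rfl]
    have : (0 : ℝ) ≤ if (0 : ZMod (N k)) ∈ S k then 1 / (2 * ((S k).card : ℝ)) else 0 := by
      split_ifs <;> positivity
    linarith
  · intro k
    rw [eq_top_iff]
    intro x _
    have hsub : ∀ s ∈ S k, mu (S k) s ≠ 0 := by
      intro s hs
      have hSc : (0 : ℝ) < (S k).card := by exact_mod_cast (hS k).nonempty.card_pos
      have h0 : s ≠ 0 := fun h0 => (hS k).zero (h0 ▸ hs)
      show (if s = 0 then (1 / 2 : ℝ) else 0) + (if s ∈ S k then 1 / (2 * ((S k).card : ℝ)) else 0)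
        ≠ 0
      rw [if_neg h0, if_pos hs]
      positivity
    refine (hS k).closed (AddSubgroup.closure {x : ZMod (N k) | mu (S k) x ≠ 0} :
      Set (ZMod (N k))) 0 (AddSubgroup.zero_mem _) ?_ x
    intro y hy s hs
    exact AddSubgroup.add_mem _ hy (AddSubgroup.subset_closure (hsub s hs))
  · apply Helper394.tendsto_div_of
    · intro n
      exact Helper394.sInf_gt _ (n + 64) _ (by norm_num) (h1 n) (h3 n _ (by norm_num))
    · intro n
      have h4 : 0 ≤ lamStar (mu (S n)) := Real.iSup_nonneg fun j => abs_nonneg _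
      have h5 : lamStar (mu (S n)) ≤ 7 / 8 :=
        Real.iSup_le (fun j => hat_bound (hS n) j.1 j.2) (by norm_num)
      have h6 : 0 < 1 - lamStar (mu (S n)) := by linarith
      refine ⟨one_div_pos.mpr h6, ?_⟩
      rw [trel, div_le_iff₀ h6]
      linarith
  · intro hcut
    exact Helper394.no_cutoff_of (fun n => tv (mu (S n))) h1 h2 h3
      (hcut (1 / 2000) (by norm_num) (by norm_num))

end

end Pool.Agent.Results.MP_7e070a_pr.CycleNoCutoff
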